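import Pool.Agent.Helper76.FT.GoalsG
import Pool.Agent.Helper32.FT.Newton1

/-!
# FT-TORP: momentum and energy of a torus
-/

set_option autoImplicit false

namespace Pool.Agent.Helper68.FT

open Complex Set Filter Topology Metric
open Pool.Agent.Helper76.FT
open Pool.Agent.Helper32.FTNewton (isOpen_str diffAt sh_dz)

/-- strict differentiability of a torus function, uniformly in time -/
theorem strict {f : ℂ → ℝ → ℂ} {ρ : ℝ} (h : SH f ρ) {z : ℂ} (hz : z ∈ Str ρ) {t : ℝ}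
    (ht : t ∈ Icc (0:ℝ) 1) {ε : ℝ} (hε : 0 < ε) :
    ∃ r0 > 0, ∀ᶠ s in 𝓝[Icc (0:ℝ) 1] t, ∀ z₁ ∈ ball z r0, ∀ z₂ ∈ ball z r0,
      ‖f z₂ s - f z₁ s - dz f z t * (z₂ - z₁)‖ ≤ ε * ‖z₂ - z₁‖ := by
  have hc := (sh_dz h).cont (z, t) ⟨hz, ht⟩
  rw [ContinuousWithinAt, Metric.tendsto_nhds] at hc
  have h1 := hc ε hε
  rw [nhdsWithin_prod_eq, Filter.eventually_prod_iff] at h1
  obtain ⟨pa, hpa, pb, hpb, hab⟩ := h1
  rw [(isOpen_str ρ).nhdsWithin_eq hz] at hpa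
  obtain ⟨r0, hr0, hball⟩ := Metric.eventually_nhds_iff_ball.1
    (hpa.and ((isOpen_str ρ).mem_nhds hz))
  refine ⟨r0, hr0, ?_⟩
  filter_upwards [hpb, self_mem_nhdsWithin] with s hs hs1 z₁ hz₁ z₂ hz₂
  have key := (convex_ball z r0).norm_image_sub_le_of_norm_hasDerivWithin_le
    (f := fun y => f y s - dz f z t * y) (f' := fun y => dz f y s - dz f z t) (C := ε)
    (fun y hy => by
      have h2 : HasDerivAt (fun z' => f z' s) (dz f y s) y :=
        (diffAt h (hball y hy).2 hs1).hasDerivAt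
      have h3 : HasDerivAt (fun y => dz f z t * y) (dz f z t) y := by
        simpa using (hasDerivAt_id y).const_mul (dz f z t)
      exact (h2.sub h3).hasDerivWithinAt)
    (fun y hy => by
      have := hab (hball y hy).1 hs
      rw [dist_eq_norm] at this
      exact this.le) hz₁ hz₂
  have e : f z₂ s - f z₁ s - dz f z t * (z₂ - z₁) =
      (f z₂ s - dz f z t * z₂) - (f z₁ s - dz f z t * z₁) := by ring
  rw [e]
  exact key

/-- Burgers equation -/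
theorem burgers {S : Sys} {δ ρ : ℝ} {w : ℂ → ℝ → ℂ} {c : ℂ} (hT : Tor S δ w ρ c) {z : ℂ}
    (hz : z ∈ Str ρ) {t : ℝ} (ht : t ∈ Icc (0:ℝ) 1) :
    HasDerivWithinAt (fun s => w z s) (-(w z t * dz w z t)) (Icc (0:ℝ) 1) t := by
  rw [hasDerivWithinAt_iff_isLittleO, Asymptotics.isLittleO_iff]
  intro ε hε
  obtain ⟨r0, hr0, hev⟩ := strict hT.sh hz ht (ε := ε / (‖w z t‖ + 1)) (by positivity)
  have hcont : Tendsto (fun s : ℝ => z + ((s : ℂ) - t) * w z t) (𝓝[Icc (0:ℝ) 1] t) (𝓝 z) := by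
    have h1 : Continuous (fun s : ℝ => z + ((s : ℂ) - t) * w z t) := by fun_prop
    have h2 := h1.tendsto t
    simp only [sub_self, zero_mul, add_zero] at h2
    exact h2.mono_left nhdsWithin_le_nhds
  filter_upwards [hev, hcont (ball_mem_nhds z hr0), hcont ((isOpen_str ρ).mem_nhds hz),
    self_mem_nhdsWithin] with s hs h1 h2 h3
  have h4 := hT.line z hz s h3 t ht h2
  have h5 := hs _ h1 z (mem_ball_self hr0)
  rw [h4] at h5
  have e : w z s - w z t - (s - t) • (-(w z t * dz w z t)) =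
      w z s - w z t - dz w z t * (z - (z + ((s : ℂ) - t) * w z t)) := by
    rw [Complex.real_smul]
    push_cast
    ring
  rw [e]
  refine h5.trans ?_
  have e2 : z - (z + ((s : ℂ) - t) * w z t) = -(((s - t : ℝ) : ℂ) * w z t) := by
    push_cast
    ring
  rw [e2, norm_neg, norm_mul, Complex.norm_real]
  have h6 : 0 ≤ ‖s - t‖ := norm_nonneg _
  have h7 : ‖w z t‖ ≤ ‖w z t‖ + 1 := by linarith
  calc ε / (‖w z t‖ + 1) * (‖s - t‖ * ‖w z t‖)
      ≤ ε / (‖w z t‖ + 1) * (‖s - t‖ * (‖w z t‖ + 1)) := by gcongr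
    _ = ε * ‖s - t‖ := by field_simp

/-- strict differentiability of the momentum in the velocity, uniformly in time -/
theorem mom_strict {S : Sys} (hS : S.Ok) (hR : GReg) (hM : GMom) {z w₀ : ℂ} {t : ℝ}
    (ht : t ∈ Icc (0:ℝ) 1) (hz : (z, w₀) ∈ S.Nb t S.r) {ε : ℝ} (hε : 0 < ε) :
    ∃ r0 > 0, ∀ᶠ s in 𝓝[Icc (0:ℝ) 1] t, ∀ w₁ ∈ ball w₀ r0, ∀ w₂ ∈ ball w₀ r0,
      ‖S.p s z w₂ - S.p s z w₁ - S.κ (z - t * w₀) w₀ * (w₂ - w₁)‖ ≤ ε * ‖w₂ - w₁‖ := by
  obtain ⟨k0, M, hk0, hMpos, -, -, hm⟩ := hM S hS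
  obtain ⟨-, -, -, -, -, hop, hjo, -, -, -, -, -, -⟩ := hR S hS
  have hmem0 : (z - t * w₀, w₀) ∈ S.Nb 0 S.R := by
    have := hS.path t ht _ hz 1 ⟨zero_le_one, le_rfl⟩
    simpa using this
  have hκ : ContinuousAt (fun z : ℂ × ℂ => S.κ z.1 z.2) (z - t * w₀, w₀) :=
    (hS.κhol.differentiableAt ((hop 0 S.R).mem_nhds hmem0)).continuousAt
  have hmap1 : Tendsto (fun y : ℝ × ℂ => (y.1, (z, y.2))) (𝓝[Icc (0:ℝ) 1 ×ˢ univ] (t, w₀))
      (𝓝[Icc (0:ℝ) 1 ×ˢ univ] (t, (z, w₀))) := by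
    refine tendsto_nhdsWithin_iff.2 ⟨?_, ?_⟩
    · have : Continuous (fun y : ℝ × ℂ => (y.1, (z, y.2))) := by fun_prop
      exact (this.tendsto (t, w₀)).mono_left nhdsWithin_le_nhds
    · filter_upwards [self_mem_nhdsWithin] with y hy
      exact ⟨hy.1, mem_univ _⟩
  have hmap2 : Tendsto (fun y : ℝ × ℂ => (z - y.1 * y.2, y.2)) (𝓝[Icc (0:ℝ) 1 ×ˢ univ] (t, w₀))
      (𝓝 (z - t * w₀, w₀)) := by
    have : Continuous (fun y : ℝ × ℂ => (z - y.1 * y.2, y.2)) := by fun_prop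
    exact (this.tendsto (t, w₀)).mono_left nhdsWithin_le_nhds
  have hev1 := hmap1.eventually (hjo S.r t ht (z, w₀) hz)
  have hev2 := (hκ.tendsto.comp hmap2).eventually (ball_mem_nhds _ hε)
  have hev := hev1.and hev2
  rw [nhdsWithin_prod_eq, nhdsWithin_univ, Filter.eventually_prod_iff] at hev
  obtain ⟨pa, hpa, pb, hpb, hab⟩ := hev
  obtain ⟨r0, hr0, hball⟩ := Metric.eventually_nhds_iff_ball.1 hpb
  refine ⟨r0, hr0, ?_⟩
  filter_upwards [hpa, self_mem_nhdsWithin] with s hs hs1 w₁ hw₁ w₂ hw₂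
  have key := (convex_ball w₀ r0).norm_image_sub_le_of_norm_hasDerivWithin_le
    (f := fun y => S.p s z y - S.κ (z - t * w₀) w₀ * y)
    (f' := fun y => S.κ (z - s * y) y - S.κ (z - t * w₀) w₀) (C := ε)
    (fun y hy => by
      have h1 := (hab hs (hball y hy)).1
      have h2 : HasDerivAt (fun w => S.p s z w) (S.κ (z - s * y) y) y :=
        ((hm s hs1).2.2 (z, y) h1).1
      have h3 : HasDerivAt (fun y => S.κ (z - t * w₀) w₀ * y) (S.κ (z - t * w₀) w₀) y := by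
        simpa using (hasDerivAt_id y).const_mul (S.κ (z - t * w₀) w₀)
      exact (h2.sub h3).hasDerivWithinAt)
    (fun y hy => by
      have := (hab hs (hball y hy)).2
      simp only [Function.comp, mem_ball, dist_eq_norm] at this
      exact this.le) hw₁ hw₂
  have e : S.p s z w₂ - S.p s z w₁ - S.κ (z - t * w₀) w₀ * (w₂ - w₁) =
      (S.p s z w₂ - S.κ (z - t * w₀) w₀ * w₂) - (S.p s z w₁ - S.κ (z - t * w₀) w₀ * w₁) := by
    ring
  rw [e]
  exact key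

theorem dz_En {S : Sys} (hS : S.Ok) (hR : GReg) (hM : GMom) {δ ρ : ℝ} {w : ℂ → ℝ → ℂ} {c : ℂ}
    (hT : Tor S δ w ρ c) {z : ℂ} (hz : z ∈ Str ρ) {t : ℝ} (ht : t ∈ Icc (0:ℝ) 1) :
    dz (fun z t => S.En t z (w z t)) z t = deriv (fun q => S.En t q (w z t)) z +
      w z t * S.κ (z - t * w z t) (w z t) * dz w z t := by
  obtain ⟨k0, M, hk0, hMpos, -, -, hm⟩ := hM S hS
  obtain ⟨-, -, -, -, -, hop, -, -, -, -, -, -, -⟩ := hR S hS
  have hmem := hT.nb z hz t ht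
  have hd : DifferentiableAt ℂ (fun z : ℂ × ℂ => S.En t z.1 z.2) (z, w z t) :=
    (hm t ht).2.1.differentiableAt ((hop t S.r).mem_nhds hmem)
  set L := fderiv ℂ (fun z : ℂ × ℂ => S.En t z.1 z.2) (z, w z t) with hL
  have hF := hd.hasFDerivAt
  rw [← hL] at hF
  have h1 : HasDerivAt (fun z' => (z', w z' t)) ((1 : ℂ), dz w z t) z :=
    (hasDerivAt_id z).prodMk (diffAt hT.sh hz ht).hasDerivAt
  have h2 : HasDerivAt (fun z' => S.En t z' (w z' t)) (L (1, dz w z t)) z :=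
    HasFDerivAt.comp_hasDerivAt (l := fun z : ℂ × ℂ => S.En t z.1 z.2)
      (f := fun z' => (z', w z' t)) z hF h1
  have h3 : HasDerivAt (fun q => (q, w z t)) ((1 : ℂ), (0 : ℂ)) z :=
    (hasDerivAt_id z).prodMk (hasDerivAt_const z (w z t))
  have h4 : HasDerivAt (fun q => S.En t q (w z t)) (L (1, 0)) z :=
    HasFDerivAt.comp_hasDerivAt (l := fun z : ℂ × ℂ => S.En t z.1 z.2)
      (f := fun q => (q, w z t)) z hF h3
  have h5 : HasDerivAt (fun v => (z, v)) ((0 : ℂ), (1 : ℂ)) (w z t) :=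
    (hasDerivAt_const (w z t) z).prodMk (hasDerivAt_id (w z t))
  have h6 : HasDerivAt (fun v => S.En t z v) (L (0, 1)) (w z t) :=
    HasFDerivAt.comp_hasDerivAt (l := fun z : ℂ × ℂ => S.En t z.1 z.2)
      (f := fun v => (z, v)) (w z t) hF h5
  have h7 : L (0, 1) = w z t * S.κ (z - t * w z t) (w z t) :=
    h6.unique ((hm t ht).2.2 _ hmem).2.1
  have h8 : L (1, dz w z t) = L (1, 0) + dz w z t * L (0, 1) := by
    have : ((1 : ℂ), dz w z t) = (1, 0) + (dz w z t) • ((0 : ℂ), (1 : ℂ)) := by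
      simp
    rw [this, map_add, map_smul, smul_eq_mul]
  have h9 : dz (fun z t => S.En t z (w z t)) z t = L (1, dz w z t) := h2.deriv
  rw [h9, h8, h7, h4.deriv]
  ring

theorem dt_P {S : Sys} (hS : S.Ok) (hR : GReg) (hM : GMom) {δ ρ : ℝ} {w : ℂ → ℝ → ℂ} {c : ℂ}
    (hT : Tor S δ w ρ c) {z : ℂ} (hz : z ∈ Str ρ) {t : ℝ} (ht : t ∈ Icc (0:ℝ) 1) :
    HasDerivWithinAt (fun s => S.p s z (w z s))
      (-dz (fun z t => S.En t z (w z t)) z t) (Icc (0:ℝ) 1) t := by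
  have hmem := hT.nb z hz t ht
  have hB := burgers hT hz ht
  obtain ⟨k0, M, hk0, hMpos, -, -, hm⟩ := hM S hS
  have h1 : HasDerivWithinAt (fun s => S.p s z (w z t)) (-deriv (fun q => S.En t q (w z t)) z)
      (Icc (0:ℝ) 1) t := ((hm t ht).2.2 _ hmem).2.2.1
  have h2 : HasDerivWithinAt (fun s => S.κ (z - t * w z t) (w z t) * (w z s - w z t))
      (S.κ (z - t * w z t) (w z t) * (-(w z t * dz w z t))) (Icc (0:ℝ) 1) t :=
    (hB.sub_const (w z t)).const_mul _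
  have h3 : HasDerivWithinAt (fun s => S.p s z (w z s) - S.p s z (w z t) -
      S.κ (z - t * w z t) (w z t) * (w z s - w z t)) 0 (Icc (0:ℝ) 1) t := by
    rw [hasDerivWithinAt_iff_isLittleO]
    have hO : (fun s => w z s - w z t) =O[𝓝[Icc (0:ℝ) 1] t] fun s => s - t :=
      (HasDerivAtFilter.isBigO_sub hB).comp_tendsto (k := fun s : ℝ => (s, t))
        (tendsto_id.prodMk tendsto_const_pure)
    have ho : (fun s => S.p s z (w z s) - S.p s z (w z t) -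
        S.κ (z - t * w z t) (w z t) * (w z s - w z t)) =o[𝓝[Icc (0:ℝ) 1] t]
        fun s => w z s - w z t := by
      rw [Asymptotics.isLittleO_iff]
      intro ε hε
      obtain ⟨r0, hr0, hev⟩ := mom_strict hS hR hM ht hmem hε
      have hc : Tendsto (fun s => w z s) (𝓝[Icc (0:ℝ) 1] t) (𝓝 (w z t)) :=
        hB.continuousWithinAt
      filter_upwards [hev, hc (ball_mem_nhds _ hr0)] with s hs hs2
      exact hs _ (mem_ball_self hr0) _ hs2
    have := ho.trans_isBigO hO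
    refine this.congr_left ?_
    intro s
    simp
  have h4 := (h3.add h1).add h2
  have e : (fun s => S.p s z (w z s)) = fun s => (S.p s z (w z s) - S.p s z (w z t) -
      S.κ (z - t * w z t) (w z t) * (w z s - w z t)) + S.p s z (w z t) +
      S.κ (z - t * w z t) (w z t) * (w z s - w z t) := by
    funext s
    ring
  rw [dz_En hS hR hM hT hz ht, e]
  exact h4.congr_deriv (by ring)

theorem real_mem_str {ρ : ℝ} (hρ : 0 < ρ) (x : ℝ) : (x : ℂ) ∈ Str ρ := by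
  simp [Str, hρ]

theorem sh_P {S : Sys} (hS : S.Ok) (hM : GMom) {δ ρ : ℝ} {w : ℂ → ℝ → ℂ} {c : ℂ}
    (hT : Tor S δ w ρ c) : SH (fun z t => S.p t z (w z t)) ρ := by
  obtain ⟨k0, M, hk0, hMpos, hpc, hEc, hm⟩ := hM S hS
  have hmap : ContinuousOn (fun q : ℂ × ℝ => (q.2, (q.1, w q.1 q.2))) (Str ρ ×ˢ Icc (0:ℝ) 1) :=
    continuousOn_snd.prodMk (continuousOn_fst.prodMk hT.sh.cont)
  refine ⟨fun t ht => ?_, ?_, ?_⟩
  · exact (hm t ht).1.comp (differentiableOn_id.prodMk (hT.sh.hol t ht))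
      (fun z hz => hT.nb z hz t ht)
  · have h := ContinuousOn.comp (g := fun y : ℝ × (ℂ × ℂ) => S.p y.1 y.2.1 y.2.2)
      (f := fun q : ℂ × ℝ => (q.2, (q.1, w q.1 q.2))) hpc hmap
      (fun q hq => ⟨hq.2, hT.nb q.1 hq.1 q.2 hq.2⟩)
    simpa only [Function.comp_def] using h
  · intro z hz t ht
    obtain ⟨-, -, -, -, -, -, -, hper, -⟩ := (hm t ht).2.2 _ (hT.nb z hz t ht)
    simp only at hper ⊢
    rw [hT.sh.per z hz t ht]
    exact hper

theorem sh_En {S : Sys} (hS : S.Ok) (hM : GMom) {δ ρ : ℝ} {w : ℂ → ℝ → ℂ} {c : ℂ}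
    (hT : Tor S δ w ρ c) : SH (fun z t => S.En t z (w z t)) ρ := by
  obtain ⟨k0, M, hk0, hMpos, hpc, hEc, hm⟩ := hM S hS
  have hmap : ContinuousOn (fun q : ℂ × ℝ => (q.2, (q.1, w q.1 q.2))) (Str ρ ×ˢ Icc (0:ℝ) 1) :=
    continuousOn_snd.prodMk (continuousOn_fst.prodMk hT.sh.cont)
  refine ⟨fun t ht => ?_, ?_, ?_⟩
  · exact (hm t ht).2.1.comp (differentiableOn_id.prodMk (hT.sh.hol t ht))
      (fun z hz => hT.nb z hz t ht)
  · have h := ContinuousOn.comp (g := fun y : ℝ × (ℂ × ℂ) => S.En y.1 y.2.1 y.2.2)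
      (f := fun q : ℂ × ℝ => (q.2, (q.1, w q.1 q.2))) hEc hmap
      (fun q hq => ⟨hq.2, hT.nb q.1 hq.1 q.2 hq.2⟩)
    simpa only [Function.comp_def] using h
  · intro z hz t ht
    obtain ⟨-, -, -, -, -, -, -, -, hper, -⟩ := (hm t ht).2.2 _ (hT.nb z hz t ht)
    simp only at hper ⊢
    rw [hT.sh.per z hz t ht]
    exact hper

/-- the mean momentum is constant in time -/
theorem mean_P {S : Sys} (hS : S.Ok) (hR : GReg) (hM : GMom) {δ ρ : ℝ} {w : ℂ → ℝ → ℂ} {c : ℂ}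
    (hT : Tor S δ w ρ c) {t : ℝ} (ht : t ∈ Icc (0:ℝ) 1) :
    ∫ x in (0:ℝ)..1, S.p t (x : ℂ) (w (x : ℂ) t) = c := by
  have hE := sh_En hS hM hT
  have hP := sh_P hS hM hT
  have hEz := sh_dz hE
  have hρ := hT.hρ
  have hreal : ∀ x : ℝ, (x : ℂ) ∈ Str ρ := real_mem_str hρ
  have h0 : (0:ℝ) ∈ Icc (0:ℝ) 1 := ⟨le_rfl, zero_le_one⟩
  -- the derivative as a function on the square
  have hFc : ContinuousOn (fun q : ℝ × ℝ => dz (fun z t => S.En t z (w z t)) (q.1 : ℂ) q.2)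
      (univ ×ˢ Icc (0:ℝ) 1) :=
    hEz.cont.comp (f := fun q : ℝ × ℝ => ((q.1 : ℂ), q.2))
      (by fun_prop) (fun q hq => ⟨hreal q.1, hq.2⟩)
  have hx : ∀ x : ℝ, S.p t (x : ℂ) (w (x : ℂ) t) - S.p 0 (x : ℂ) (w (x : ℂ) 0) =
      ∫ τ in (0:ℝ)..t, -dz (fun z t => S.En t z (w z t)) (x : ℂ) τ := by
    intro x
    have hsub : Icc (0:ℝ) t ⊆ Icc (0:ℝ) 1 := Icc_subset_Icc_right ht.2
    symm
    refine intervalIntegral.integral_eq_sub_of_hasDeriv_right_of_le ht.1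
      (f := fun s => S.p s (x : ℂ) (w (x : ℂ) s)) ?_ ?_ ?_
    · intro s hs
      exact ((dt_P hS hR hM hT (hreal x) (hsub hs)).continuousWithinAt).mono hsub
    · intro s hs
      have hs1 : s ∈ Icc (0:ℝ) 1 := hsub (Ioo_subset_Icc_self hs)
      have hnb : Icc (0:ℝ) 1 ∈ 𝓝 s := Icc_mem_nhds hs.1 (hs.2.trans_le ht.2)
      exact ((dt_P hS hR hM hT (hreal x) hs1).hasDerivAt hnb).hasDerivWithinAt
    · refine ContinuousOn.intervalIntegrable ?_
      rw [uIcc_of_le ht.1]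
      refine ContinuousOn.neg ?_
      exact hFc.comp (f := fun τ : ℝ => (x, τ)) (by fun_prop)
        (fun τ hτ => ⟨mem_univ _, hsub hτ⟩)
  have hPc : ∀ s ∈ Icc (0:ℝ) 1, Continuous fun x : ℝ => S.p s (x : ℂ) (w (x : ℂ) s) := by
    intro s hs
    have := hP.cont.comp (f := fun x : ℝ => ((x : ℂ), s)) (s := univ) (by fun_prop)
      (fun x _ => ⟨hreal x, hs⟩)
    exact continuousOn_univ.1 this
  have hdiff : (∫ x in (0:ℝ)..1, S.p t (x : ℂ) (w (x : ℂ) t)) -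
      ∫ x in (0:ℝ)..1, S.p 0 (x : ℂ) (w (x : ℂ) 0) = 0 := by
    rw [← intervalIntegral.integral_sub ((hPc t ht).intervalIntegrable _ _)
      ((hPc 0 h0).intervalIntegrable _ _)]
    simp only [hx]
    have hint : MeasureTheory.IntegrableOn (Function.uncurry fun (x τ : ℝ) =>
        -dz (fun z t => S.En t z (w z t)) (x : ℂ) τ) (uIoc (0:ℝ) 1 ×ˢ uIoc 0 t) := by
      have hK : IsCompact (Icc (0:ℝ) 1 ×ˢ Icc (0:ℝ) t) := isCompact_Icc.prod isCompact_Icc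
      have hc : ContinuousOn (Function.uncurry fun (x τ : ℝ) =>
          -dz (fun z t => S.En t z (w z t)) (x : ℂ) τ) (Icc (0:ℝ) 1 ×ˢ Icc (0:ℝ) t) := by
        refine (ContinuousOn.neg ?_)
        exact hFc.mono (prod_mono (subset_univ _) (Icc_subset_Icc_right ht.2))
      refine (hc.integrableOn_compact hK).mono_set ?_
      rw [uIoc_of_le zero_le_one, uIoc_of_le ht.1]
      exact prod_mono Ioc_subset_Icc_self Ioc_subset_Icc_self
    rw [MeasureTheory.intervalIntegral_intervalIntegral_swap hint]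
    refine intervalIntegral.integral_zero_ae ?_ |>.trans rfl
    refine Filter.Eventually.of_forall fun τ hτ => ?_
    rw [uIoc_of_le ht.1] at hτ
    have hτ1 : τ ∈ Icc (0:ℝ) 1 := ⟨hτ.1.le, hτ.2.trans ht.2⟩
    have hd : ∀ x ∈ uIcc (0:ℝ) 1, HasDerivAt (fun x : ℝ => -S.En τ (x : ℂ) (w (x : ℂ) τ))
        (-dz (fun z t => S.En t z (w z t)) (x : ℂ) τ) x := by
      intro x _
      have h1 : HasDerivAt (fun z' => S.En τ z' (w z' τ))
          (dz (fun z t => S.En t z (w z t)) (x : ℂ) τ) (x : ℂ) :=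
        (diffAt hE (hreal x) hτ1).hasDerivAt
      exact h1.comp_ofReal.neg
    rw [intervalIntegral.integral_eq_sub_of_hasDerivAt hd]
    · have hper := hE.per 0 (by simpa using hreal 0) τ hτ1
      simp only [zero_add] at hper
      push_cast
      rw [hper]
      ring
    · refine ContinuousOn.intervalIntegrable ?_
      refine ContinuousOn.neg ?_
      exact hFc.comp (f := fun x : ℝ => (x, τ)) (by fun_prop) (fun x hx => ⟨mem_univ _, hτ1⟩)
  rw [sub_eq_zero] at hdiff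
  rw [hdiff]
  exact hT.mean

theorem im_line {F : ℂ → ℂ} {F' : ℂ} {v y : ℝ} (h : HasDerivAt F F' ((v : ℂ) + y * I)) :
    HasDerivAt (fun y : ℝ => (F ((v : ℂ) + y * I)).im) F'.re y := by
  have h1 : HasDerivAt (fun u : ℂ => (v : ℂ) + u * I) I (y : ℂ) := by
    simpa using ((hasDerivAt_id (y : ℂ)).mul_const I).const_add (v : ℂ)
  have h2 : HasDerivAt (fun u : ℂ => F ((v : ℂ) + u * I)) (F' * I) (y : ℂ) :=
    HasDerivAt.comp (h₂ := F) (h := fun u : ℂ => (v : ℂ) + u * I) (y : ℂ) h h1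
  have h3 := h2.comp_ofReal
  have h4 := (Complex.imCLM.hasFDerivAt.comp_hasDerivAt y h3)
  have e : Complex.imCLM (F' * I) = F'.re := by simp
  rw [e] at h4
  exact h4

theorem nb_line {S : Sys} {t x : ℝ} {w₀ : ℂ} (h : ((x : ℂ), w₀) ∈ S.Nb t S.r) {y : ℝ}
    (hy : y ∈ Icc (0:ℝ) w₀.im) : ((x : ℂ), (w₀.re : ℂ) + y * I) ∈ S.Nb t S.r := by
  obtain ⟨y', hy', h1, h2⟩ := h
  refine ⟨y', hy', h1, lt_of_le_of_lt ?_ h2⟩
  refine (sq_le_sq₀ (norm_nonneg _) (norm_nonneg _)).1 ?_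
  rw [Complex.sq_norm, Complex.sq_norm, Complex.normSq_apply, Complex.normSq_apply]
  simp
  nlinarith [hy.1, hy.2]

theorem nb_norm {S : Sys} {M₁ : ℝ} {t : ℝ} (hM₁ : ∀ y ∈ S.Reg t, |y.2| ≤ M₁) {z : ℂ × ℂ}
    (h : z ∈ S.Nb t S.r) : ‖z.2‖ ≤ M₁ + S.r := by
  obtain ⟨y, hy, -, h2⟩ := h
  have h3 := hM₁ y hy
  have h4 : ‖(y.2 : ℂ)‖ = |y.2| := by rw [Complex.norm_real, Real.norm_eq_abs]
  calc ‖z.2‖ = ‖(y.2 : ℂ) + (z.2 - (y.2 : ℂ))‖ := by ring_nf
    _ ≤ ‖(y.2 : ℂ)‖ + ‖z.2 - (y.2 : ℂ)‖ := norm_add_le _ _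
    _ ≤ M₁ + S.r := by rw [h4]; linarith

/-- packet FT-TORP -/
theorem ft_torp (hR : GReg) (hM : GMom) : GTorP := by
  intro S hS
  obtain ⟨k0, M, hk0, hMpos, hpc, hEc, hm⟩ := hM S hS
  obtain ⟨-, -, -, -, ⟨M₁, hM₁⟩, hop, -, -, -, -, -, -, -⟩ := hR S hS
  have hr := hS.hr
  set W : ℝ := |M₁| + S.r with hW
  have hWpos : 0 < W := by positivity
  refine ⟨k0, M + W + W * M, hk0, by positivity, ?_⟩
  intro δ ρ w c hT
  have hρ := hT.hρ
  have hreal : ∀ x : ℝ, (x : ℂ) ∈ Str ρ := real_mem_str hρ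
  refine ⟨sh_P hS hM hT, sh_En hS hM hT, ?_, fun z hz t ht => dt_P hS hR hM hT hz ht,
    fun z hz t ht => burgers hT hz ht, fun t ht => mean_P hS hR hM hT ht, ?_⟩
  · intro z hz
    have h := hS.kick _ (hT.nb z hz 1 ⟨zero_le_one, le_rfl⟩)
    simp only at h
    rw [← h, hT.kick z hz]
  · intro x t ht
    have hnb := hT.nb (x : ℂ) (hreal x) t ht
    have hh := (hT.pos x t ht).1
    set w₀ := w (x : ℂ) t with hw₀
    have hWb : ∀ z ∈ S.Nb t S.r, ‖z.2‖ ≤ W := fun z hz =>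
      (nb_norm (hM₁ t ht) hz).trans (by rw [hW]; linarith [le_abs_self M₁])
    have hew : w₀ = (w₀.re : ℂ) + (w₀.im : ℝ) * I := (Complex.re_add_im w₀).symm
    have hline : ∀ y ∈ Icc (0:ℝ) w₀.im, ((x : ℂ), (w₀.re : ℂ) + y * I) ∈ S.Nb t S.r :=
      fun y hy => nb_line hnb hy
    have h0mem : (0:ℝ) ∈ Icc (0:ℝ) w₀.im := ⟨le_rfl, hh.le⟩
    have h1mem : w₀.im ∈ Icc (0:ℝ) w₀.im := ⟨hh.le, le_rfl⟩
    have hdP : ∀ y ∈ Icc (0:ℝ) w₀.im, HasDerivAt (fun y : ℝ =>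
        (S.p t (x : ℂ) ((w₀.re : ℂ) + y * I)).im)
        (S.κ ((x : ℂ) - t * ((w₀.re : ℂ) + y * I)) ((w₀.re : ℂ) + y * I)).re y :=
      fun y hy => im_line (F := fun u => S.p t (x : ℂ) u) ((hm t ht).2.2 _ (hline y hy)).1
    have hdE : ∀ y ∈ Icc (0:ℝ) w₀.im, HasDerivAt (fun y : ℝ =>
        (S.En t (x : ℂ) ((w₀.re : ℂ) + y * I)).im)
        (((w₀.re : ℂ) + y * I) *
          S.κ ((x : ℂ) - t * ((w₀.re : ℂ) + y * I)) ((w₀.re : ℂ) + y * I)).re y :=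
      fun y hy => im_line (F := fun u => S.En t (x : ℂ) u) ((hm t ht).2.2 _ (hline y hy)).2.1
    have hk : ∀ y ∈ Icc (0:ℝ) w₀.im,
        k0 ≤ (S.κ ((x : ℂ) - t * ((w₀.re : ℂ) + y * I)) ((w₀.re : ℂ) + y * I)).re ∧
        ‖S.κ ((x : ℂ) - t * ((w₀.re : ℂ) + y * I)) ((w₀.re : ℂ) + y * I)‖ ≤ M := by
      intro y hy
      obtain ⟨-, -, -, h1, h2, -⟩ := (hm t ht).2.2 _ (hline y hy)
      exact ⟨h1, h2⟩
    have hP0 : (S.p t (x : ℂ) ((w₀.re : ℂ) + (0:ℝ) * I)).im = 0 := by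
      obtain ⟨-, -, -, -, -, -, -, -, -, h1, -⟩ := (hm t ht).2.2 _ (hline 0 h0mem)
      simp only [Complex.ofReal_zero, zero_mul, add_zero, Complex.conj_ofReal] at h1 ⊢
      exact Complex.conj_eq_iff_im.1 h1.symm
    have hE0 : (S.En t (x : ℂ) ((w₀.re : ℂ) + (0:ℝ) * I)).im = 0 := by
      obtain ⟨-, -, -, -, -, -, -, -, -, -, h1⟩ := (hm t ht).2.2 _ (hline 0 h0mem)
      simp only [Complex.ofReal_zero, zero_mul, add_zero, Complex.conj_ofReal] at h1 ⊢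
      exact Complex.conj_eq_iff_im.1 h1.symm
    have hcP : ContinuousOn (fun y : ℝ => (S.p t (x : ℂ) ((w₀.re : ℂ) + y * I)).im)
        (Icc (0:ℝ) w₀.im) := fun y hy => (hdP y hy).continuousAt.continuousWithinAt
    have hint : ∀ y ∈ interior (Icc (0:ℝ) w₀.im), y ∈ Icc (0:ℝ) w₀.im :=
      fun y hy => interior_subset hy
    have hlow := (convex_Icc (0:ℝ) w₀.im).mul_sub_le_image_sub_of_le_deriv hcP
      (fun y hy => (hdP y (hint y hy)).differentiableAt.differentiableWithinAt) (C := k0)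
      (fun y hy => by rw [(hdP y (hint y hy)).deriv]; exact (hk y (hint y hy)).1)
      0 h0mem w₀.im h1mem hh.le
    have hupp := (convex_Icc (0:ℝ) w₀.im).image_sub_le_mul_sub_of_deriv_le hcP
      (fun y hy => (hdP y (hint y hy)).differentiableAt.differentiableWithinAt) (C := M)
      (fun y hy => by
        rw [(hdP y (hint y hy)).deriv]
        exact ((Complex.re_le_norm _).trans (hk y (hint y hy)).2))
      0 h0mem w₀.im h1mem hh.le
    have hEb := (convex_Icc (0:ℝ) w₀.im).norm_image_sub_le_of_norm_hasDerivWithin_le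
      (f := fun y : ℝ => (S.En t (x : ℂ) ((w₀.re : ℂ) + y * I)).im) (C := W * M)
      (fun y hy => (hdE y hy).hasDerivWithinAt)
      (fun y hy => by
        rw [Real.norm_eq_abs]
        refine (Complex.abs_re_le_norm _).trans ?_
        rw [norm_mul]
        have h1 := hWb _ (hline y hy)
        exact mul_le_mul h1 (hk y hy).2 (norm_nonneg _) hWpos.le)
      h0mem h1mem
    rw [← hew] at hlow hupp
    simp only [← hew] at hEb
    rw [hP0] at hlow hupp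
    rw [hE0] at hEb
    simp only [sub_zero, Real.norm_eq_abs] at hlow hupp hEb
    rw [abs_of_pos hh] at hEb
    obtain ⟨-, -, -, -, -, h6, h7, -⟩ := (hm t ht).2.2 _ hnb
    simp only at h6 h7
    have hWM : 0 ≤ W * M := by positivity
    refine ⟨hlow, hupp.trans ?_, hEb.trans ?_, h6.trans (by linarith), h7.trans (by linarith),
      (hWb _ hnb).trans (by linarith)⟩
    · have : 0 ≤ (W + W * M) * w₀.im := by positivity
      nlinarith
    · have : 0 ≤ (M + W) * w₀.im := by positivity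
      nlinarith

end Pool.Agent.Helper68.FT
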